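import Pool.Agent.Run7.h100.UN.Iface

/-!
# Piece LOC of project UN: residue fields of a totally `p`-adic field
-/

set_option autoImplicit false

namespace Run7.h220.UN

open Run7.h100.UN
open NumberField Height Module Polynomial IsDedekindDomain

section fp

variable {L : Type} [Field L] [NumberField L]

theorem fp_lt_iff (v : FinitePlace L) (x y : L) :
    v x < v y ↔ v.maximalIdeal.valuation L x < v.maximalIdeal.valuation L y := by
  rw [← FinitePlace.norm_embedding_eq v x, ← FinitePlace.norm_embedding_eq v y,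
    FinitePlace.norm_embedding, FinitePlace.norm_embedding, HeightOneSpectrum.adicAbv_def,
    HeightOneSpectrum.adicAbv_def, NNReal.coe_lt_coe]
  exact (WithZeroMulInt.toNNReal_strictMono
    (HeightOneSpectrum.one_lt_absNorm_nnreal v.maximalIdeal)).lt_iff_lt

theorem fp_le_iff (v : FinitePlace L) (x y : L) :
    v x ≤ v y ↔ v.maximalIdeal.valuation L x ≤ v.maximalIdeal.valuation L y := by
  rw [← not_lt, ← not_lt, fp_lt_iff]

theorem fp_int (v : FinitePlace L) (r : 𝓞 L) : v (r : L) ≤ 1 := by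
  rw [← FinitePlace.norm_embedding_eq v (r : L)]
  exact FinitePlace.norm_le_one L v.maximalIdeal r

theorem fp_int' (v : FinitePlace L) {x : L} (hx : IsIntegral ℤ x) : v x ≤ 1 :=
  fp_int v ⟨x, hx⟩

theorem approx (v : FinitePlace L) {x c : L} (hx : v x ≤ 1) (hc : c ≠ 0) :
    ∃ r : 𝓞 L, v ((r : L) - x) < v c := by
  have h1 : v.maximalIdeal.valuation L x ≤ 1 := by
    have h2 : v x ≤ v 1 := by rwa [map_one]
    rw [fp_le_iff, map_one] at h2
    exact h2
  have h3 : v.maximalIdeal.valuation L c ≠ 0 := (Valuation.ne_zero_iff _).2 hc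
  obtain ⟨r, hr⟩ := HeightOneSpectrum.exists_valuation_sub_lt_of_integer v.maximalIdeal h1
    (Units.mk0 _ h3)
  refine ⟨r, ?_⟩
  rw [fp_lt_iff]
  exact hr

theorem fp_add (v : FinitePlace L) (x y : L) : v (x + y) ≤ max (v x) (v y) :=
  map_add_le_max v x y

theorem fp_sub (v : FinitePlace L) (x y : L) : v (x - y) ≤ max (v x) (v y) := by
  rw [sub_eq_add_neg]
  refine (fp_add v x (-y)).trans ?_
  rw [map_neg_eq_map]

end fp

/-- the product over all residues modulo `p` -/
theorem prod_zmod (p : ℕ) [hp : Fact p.Prime] :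
    ∏ j ∈ Finset.range p, (X - C ((j : ℕ) : ZMod p)) = X ^ p - X := by
  have h1 : ((X ^ p - X : (ZMod p)[X]).roots.map fun a => X - C a).prod = X ^ p - X := by
    apply prod_multiset_X_sub_C_of_monic_of_roots_card_eq
    · have h2 : (X ^ p - X : (ZMod p)[X]) = X ^ p + (-X) := by ring
      rw [h2]
      apply monic_X_pow_add
      rw [degree_neg, degree_X]
      exact_mod_cast hp.out.one_lt
    · have h3 := FiniteField.roots_X_pow_card_sub_X (ZMod p)
      rw [ZMod.card] at h3
      rw [h3, FiniteField.X_pow_card_sub_X_natDegree_eq (ZMod p) hp.out.one_lt, Finset.card_val,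
        Finset.card_univ, ZMod.card]
  rw [← h1]
  have h3 := FiniteField.roots_X_pow_card_sub_X (ZMod p)
  rw [ZMod.card] at h3
  rw [h3]
  show _ = ∏ a : ZMod p, (X - C a)
  have : NeZero p := ⟨hp.out.ne_zero⟩
  refine Finset.prod_bij (fun j _ => ((j : ℕ) : ZMod p)) (fun _ _ => Finset.mem_univ _) ?_ ?_
    (fun _ _ => rfl)
  · intro a ha b hb hab
    have h4 := (ZMod.natCast_eq_natCast_iff' a b p).1 hab
    rw [Nat.mod_eq_of_lt (Finset.mem_range.1 ha), Nat.mod_eq_of_lt (Finset.mem_range.1 hb)] at h4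
    exact h4
  · intro a _
    exact ⟨a.val, Finset.mem_range.2 (ZMod.val_lt a), ZMod.natCast_zmod_val a⟩

theorem poly_id (p : ℕ) (hp : p.Prime) : ∃ Q : ℤ[X],
    ∏ j ∈ Finset.range p, (X - C ((j : ℕ) : ℤ)) = (X ^ p - X) + C (p : ℤ) * Q := by
  have : Fact p.Prime := ⟨hp⟩
  set D : ℤ[X] := ∏ j ∈ Finset.range p, (X - C ((j : ℕ) : ℤ)) - (X ^ p - X) with hD
  have h1 : D.map (Int.castRingHom (ZMod p)) = 0 := by
    rw [hD, Polynomial.map_sub, Polynomial.map_prod, Polynomial.map_sub, Polynomial.map_pow,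
      Polynomial.map_X, sub_eq_zero, ← prod_zmod p]
    refine Finset.prod_congr rfl fun j _ => ?_
    rw [Polynomial.map_sub, Polynomial.map_X, Polynomial.map_C]
    simp
  have h2 : C (p : ℤ) ∣ D := by
    rw [C_dvd_iff_dvd_coeff]
    intro i
    have h3 := congrArg (fun P => P.coeff i) h1
    simp only [coeff_map, coeff_zero, eq_intCast] at h3
    exact (ZMod.intCast_zmod_eq_zero_iff_dvd _ _).1 h3
  obtain ⟨Q, hQ⟩ := h2
  refine ⟨Q, ?_⟩
  rw [← hQ, hD]
  ring

theorem t_LOC (hI : S_INT) : S_LOC := by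
  intro L _ p hp hL v hvp
  have hp0 : (p : L) ≠ 0 := by exact_mod_cast hp.ne_zero
  -- the basic inequality
  have key : ∀ r : 𝓞 L, v ((r : L) ^ p - r) ≤ v (p : L) := by
    intro r
    have h1 : IsIntegral ℤ (((r : L) : Qb)) := r.2.map (IsScalarTower.toAlgHom ℤ L Qb)
    have h2 := hI p hp ((r : L) : Qb) (hL _ (r : L).2) h1
    have h3 : IsIntegral ℤ (((r : L) ^ p - (r : L)) / (p : L)) := by
      have h4 : ((((r : L) ^ p - (r : L)) / (p : L) : L) : Qb) =
          ((((r : L) : Qb) ^ p - ((r : L) : Qb)) / (p : Qb)) := by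
        push_cast
        rfl
      rw [← h4] at h2
      exact (isIntegral_algHom_iff (IsScalarTower.toAlgHom ℤ L Qb)
        (algebraMap L Qb).injective).1 h2
    have h5 := fp_int' v h3
    rw [map_div₀, div_le_one (FinitePlace.pos_iff.2 hp0)] at h5
    exact h5
  have hnat : ∀ n : ℕ, v (n : L) ≤ 1 := by
    intro n
    exact fp_int' v (isIntegral_natCast n)
  constructor
  · intro y hy
    by_cases hy0 : y = 0
    · rw [hy0, map_zero]
      exact apply_nonneg v _
    obtain ⟨r, hr⟩ := approx v (x := y) (c := y) hy.le hy0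
    have h1 : v y ≤ v (r : L) := by
      have h2 := fp_sub v (r : L) ((r : L) - y)
      rw [sub_sub_cancel] at h2
      rcases le_max_iff.1 h2 with h3 | h3
      · exact h3
      · exact absurd hr (not_lt.2 h3)
    have h2 : v (r : L) < 1 := by
      have h3 := fp_add v ((r : L) - y) y
      rw [sub_add_cancel] at h3
      exact lt_of_le_of_lt h3 (max_lt (hr.trans hy) hy)
    have hr0 : 0 < v (r : L) := lt_of_lt_of_le (FinitePlace.pos_iff.2 hy0) h1
    have h3 : v ((r : L) ^ p) < v (r : L) := by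
      rw [map_pow]
      calc v (r : L) ^ p < v (r : L) ^ 1 := pow_lt_pow_right_of_lt_one₀ hr0 h2 hp.one_lt
        _ = v (r : L) := pow_one _
    have h4 : v (r : L) ≤ v ((r : L) ^ p - r) := by
      have h5 := fp_sub v ((r : L) ^ p) ((r : L) ^ p - r)
      rw [sub_sub_cancel] at h5
      rcases le_max_iff.1 h5 with h6 | h6
      · exact absurd h3 (not_lt.2 h6)
      · exact h6
    exact h1.trans (h4.trans (key r))
  · intro x hx
    obtain ⟨r, hr⟩ := approx v (x := x) (c := 1) hx one_ne_zero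
    rw [map_one] at hr
    -- the residue of `r`
    have h1 : ∃ j : ℕ, j < p ∧ v ((r : L) - j) < 1 := by
      obtain ⟨Q, hQ⟩ := poly_id p hp
      have h2 := congrArg (fun P : ℤ[X] => aeval (r : L) P) hQ
      simp only [map_prod, map_sub, map_add, map_mul, map_pow, aeval_X, aeval_C] at h2
      have h3 : v (aeval (r : L) Q) ≤ 1 := by
        apply fp_int'
        have h4 : aeval (r : L) Q = ((aeval r Q : 𝓞 L) : L) := by
          rw [show ((aeval r Q : 𝓞 L) : L) = algebraMap (𝓞 L) L (aeval r Q) from rfl,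
            ← aeval_algebraMap_apply]
        rw [h4]
        exact (aeval r Q : 𝓞 L).2
      have h5 : v (∏ j ∈ Finset.range p, ((r : L) - algebraMap ℤ L (j : ℤ))) < 1 := by
        rw [h2]
        refine lt_of_le_of_lt (fp_add v _ _) (max_lt (lt_of_le_of_lt (key r) hvp) ?_)
        rw [map_mul]
        have h6 : v (algebraMap ℤ L (p : ℤ)) < 1 := by simpa using hvp
        calc v (algebraMap ℤ L (p : ℤ)) * v (aeval (r : L) Q)
            ≤ v (algebraMap ℤ L (p : ℤ)) * 1 := by gcongr
          _ < 1 := by rwa [mul_one]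
      by_contra hcon
      push Not at hcon
      rw [map_prod] at h5
      have h6 : (1 : ℝ) ≤ ∏ j ∈ Finset.range p, v ((r : L) - algebraMap ℤ L (j : ℤ)) := by
        refine Finset.prod_induction _ (fun t : ℝ => 1 ≤ t) (fun a b ha hb => ?_) le_rfl
          fun j hj => ?_
        · nlinarith
        · have := hcon j (Finset.mem_range.1 hj)
          simpa using this
      exact absurd h5 (not_lt.2 h6)
    obtain ⟨j, hj, hj2⟩ := h1
    refine ⟨j, hj, ?_⟩
    have h2 : x - j = ((r : L) - j) - ((r : L) - x) := by ring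
    rw [h2]
    exact lt_of_le_of_lt (fp_sub v _ _) (max_lt hj2 hr)

end Run7.h220.UN
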